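import Pool.Agent.PX.Stmts
import Pool.Agent.Helper22_PW.Pt2

set_option autoImplicit false

/-!
# Squad PX (`MP_b2b50d_lc`), row MAX: counting at the point
-/

namespace Pool.Agent.PX.H22

open MvPolynomial
open Pool.Agent.RS (FF io)
open Pool.Agent.PW (dd JUN RR FG Robust VV Piv del eul Ph Zer Free)

theorem subset_nb {s : ℕ} {Γ : ℕ → Finset ℕ} (hs : Sym s Γ) (T : Finset ℕ) : T ⊆ nb Γ T := by
  intro i hi
  exact Finset.mem_biUnion.2 ⟨i, hi, hs.refl i⟩

theorem card_nz {s : ℕ} {Γ : ℕ → Finset ℕ} (hs : Sym s Γ) {r : ℕ} (z : Fin r → ℕ) :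
    (nz Γ z).card ≤ r * s := by
  have h := Finset.card_biUnion_le_card_mul (Finset.univ : Finset (Fin r)) (fun b => Γ (z b)) s
    (fun b _ => hs.card (z b))
  rwa [Finset.card_univ, Fintype.card_fin] at h

theorem card_nb {s : ℕ} {Γ : ℕ → Finset ℕ} (hs : Sym s Γ) (T : Finset ℕ) :
    (nb Γ T).card ≤ T.card * s :=
  Finset.card_biUnion_le_card_mul T Γ s (fun b _ => hs.card b)

/-- ROW MAX -/
theorem maxx : MaxStmt := by
  classical
  intro E D Om _ _ _ _ _ _ _ ζ m ρ r s Γ y f J T z z' j e hs hfree hpt hz hzJ hJT hf h0 hz' hz'T hm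
  obtain ⟨hj, hC, hX, -⟩ := hpt
  have hTT : T ⊆ nb Γ T := subset_nb hs T
  have hTT' : nb Γ T ⊆ nb Γ (nb Γ T) := subset_nb hs _
  have hmain := PW.H22.main2 ζ hfree z hz J hzJ (j : MvPolynomial ℕ D →+* Om)
    (e : MvPolynomial ℕ D →+* Om) hj hC (fun i hi => hX i (by rintro ⟨b, rfl⟩; exact hi b rfl))
    T (nb Γ T) hJT hTT f (by
      intro a i hi l hl hil
      apply pderiv_eq_zero_of_notMem_vars
      intro h
      apply hl
      exact Finset.mem_biUnion.2 ⟨i, hi, hs.symm l i (hf a l h)⟩) h0 z' hz'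
    (fun b h => hz'T b (hTT' h)) (nz Γ z') (by
      intro a b
      exact (hf a (z' b)).trans (fun i hi => Finset.mem_biUnion.2 ⟨b, Finset.mem_univ _, hi⟩)) (by
      have h1 : nz Γ z' ∪ Finset.univ.image z' = nz Γ z' := by
        apply Finset.union_eq_left.2
        intro i hi
        obtain ⟨b, -, rfl⟩ := Finset.mem_image.1 hi
        exact Finset.mem_biUnion.2 ⟨b, Finset.mem_univ _, hs.refl _⟩
      rw [h1]
      refine (Finset.card_union_le _ _).trans (le_trans (add_le_add ?_ (card_nz hs z')) hm)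
      exact Finset.card_le_card Finset.sdiff_subset)
  refine ⟨hmain.1, fun hr h hh hhT => hmain.2 hr h hh (hhT.trans hTT)⟩

end Pool.Agent.PX.H22
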