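import Pool.Agent.PX.Stmts

set_option autoImplicit false

/-!
# Squad PX (`MP_b2b50d_lc`), row FNM: monotonicity, stability, comparison with `FG`
-/

namespace Pool.Agent.PX.H22

open MvPolynomial
open Pool.Agent.RS (FF io)
open Pool.Agent.PW (dd JUN RR FG Robust VV Piv del eul Ph Zer Free)

variable {E : Type} [Field E]

theorem fn_mono (Γ : ℕ → Finset ℕ) (c : ℕ) :
    ∀ (G G' : Finset ℕ) (f : FF E), G ⊆ G' → FN Γ c G f → FN Γ c G' f := by
  induction c with
  | zero => exact fun G G' f h hf i hi => hf i fun h' => hi (h h')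
  | succ c ih =>
    exact fun G G' f h hf i hi =>
      ih _ _ _ (Finset.union_subset_union_left h) (hf i fun h' => hi (h h'))

theorem fn_succ (Γ : ℕ → Finset ℕ) (c : ℕ) :
    ∀ (G : Finset ℕ) (f : FF E), FN Γ c G f → FN Γ (c + 1) G f := by
  induction c with
  | zero =>
    intro G f hf i hi j _
    rw [hf i hi, map_zero]
  | succ c ih => exact fun G f hf i hi => ih _ _ (hf i hi)

theorem fn_le (Γ : ℕ → Finset ℕ) {c c' : ℕ} (h : c ≤ c') (G : Finset ℕ) (f : FF E)
    (hf : FN Γ c G f) : FN Γ c' G f := by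
  induction h with
  | refl => exact hf
  | step _ ih => exact fn_succ Γ _ G f ih

theorem fn_dd (Γ : ℕ → Finset ℕ) (c : ℕ) :
    ∀ (G : Finset ℕ) (f : FF E) (j : ℕ), FN Γ c G f → FN Γ c G (dd j f) := by
  have hc : ∀ (i j : ℕ) (w : FF E), dd i (dd j w) = dd j (dd i w) := (PW.aDer E).2.1
  induction c with
  | zero =>
    intro G f j hf i hi
    rw [hc, hf i hi, map_zero]
  | succ c ih =>
    intro G f j hf i hi
    rw [hc]
    exact ih _ _ _ (hf i hi)

theorem fn_of_fg {s : ℕ} {Γ : ℕ → Finset ℕ} (hs : Sym s Γ) (c : ℕ) :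
    ∀ (G : Finset ℕ) (f : FF E), FG c G f → FN Γ c G f := by
  induction c with
  | zero => exact fun G f hf i hi => hf i hi
  | succ c ih =>
    intro G f hf i hi
    refine ih _ _ ((PW.aFgm E).1 c _ _ _ ?_ (hf i hi))
    intro l hl
    rcases Finset.mem_insert.1 hl with rfl | hl
    · exact Finset.mem_union_right _ (hs.refl _)
    · exact Finset.mem_union_left _ hl

/-- Trading the elements of a finite set. -/
theorem fg_trade (c : ℕ) (A G : Finset ℕ) (f : FF E) (hf : FG c (G ∪ A) f) :
    FG (c + A.card) G f := by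
  classical
  induction A using Finset.induction_on generalizing c with
  | empty =>
    rw [Finset.card_empty, add_zero]
    rwa [Finset.union_empty] at hf
  | insert a A ha ih =>
    rw [Finset.union_insert] at hf
    have h1 := ih (c + 1) ((PW.aFgm E).2.2.2.1 c a (G ∪ A) f hf)
    rw [Finset.card_insert_of_notMem ha, ← add_assoc, add_right_comm]
    exact h1

theorem fg_of_fn {s : ℕ} {Γ : ℕ → Finset ℕ} (hs : Sym s Γ) (c : ℕ) :
    ∀ (G : Finset ℕ) (f : FF E), FN Γ c G f → FG (c * (s + 1)) G f := by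
  classical
  induction c with
  | zero =>
    intro G f hf
    rw [zero_mul]
    exact fun i hi => hf i hi
  | succ c ih =>
    intro G f hf
    have h0 : (c + 1) * (s + 1) = (c * (s + 1) + s) + 1 := by ring
    rw [h0]
    intro i hi
    have h1 : FG (c * (s + 1)) (G ∪ Γ i) (dd i f) := ih _ _ (hf i hi)
    have h2 : FG (c * (s + 1)) (insert i G ∪ Γ i) (dd i f) :=
      (PW.aFgm E).1 _ _ _ _ (Finset.union_subset_union_left (Finset.subset_insert i G)) h1
    have h3 := fg_trade _ _ _ _ h2
    exact (PW.aFgm E).2.1 _ _ _ _ (Nat.add_le_add_left (hs.card i) _) h3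

/-- ROW FNM -/
theorem fnm : FnmStmt := by
  intro E _ s Γ hs
  exact ⟨fn_mono Γ, fun c c' G f h hf => fn_le Γ h G f hf, fn_dd Γ, fn_of_fg hs, fg_of_fn hs⟩

end Pool.Agent.PX.H22
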