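import Pool.Agent.Helper22_PX.MAX

set_option autoImplicit false

/-!
# Squad PX (`MP_b2b50d_lc`), row PNX: the point, final form
-/

namespace Pool.Agent.PX.H22

open MvPolynomial
open Pool.Agent.RS (FF io)
open Pool.Agent.PW (dd JUN RR FG Robust VV Piv del eul Ph Zer Free)

theorem sym_pos {s : ℕ} {Γ : ℕ → Finset ℕ} (hs : Sym s Γ) : 1 ≤ s :=
  (Finset.card_pos.2 ⟨0, hs.refl 0⟩).trans_le (hs.card 0)

/-- The relation enlarged by the interactions of `g`. -/
theorem sym_union {E : Type} [Field E] [CharZero E] {s c0 : ℕ} {Γ : ℕ → Finset ℕ} (hs : Sym s Γ)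
    {g : MvPolynomial ℕ E} (hg : IsLo c0 g) :
    Sym (s + c0) fun i => Γ i ∪ (pderiv i g).vars := by
  classical
  refine ⟨fun i => Finset.mem_union_left _ (hs.refl i), fun i j hj => ?_, fun i => ?_⟩
  · rcases Finset.mem_union.1 hj with hj | hj
    · exact Finset.mem_union_left _ (hs.symm i j hj)
    · apply Finset.mem_union_right
      by_contra hi
      have h1 : pderiv i (pderiv j g) = 0 := pderiv_eq_zero_of_notMem_vars hi
      rw [PW.H99.pd_comm] at h1
      exact PW.H22.notMem_vars h1 hj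
  · exact (Finset.card_union_le _ _).trans (add_le_add (hs.card i) (hg i))

theorem mem_nz {s : ℕ} {Γ : ℕ → Finset ℕ} (hs : Sym s Γ) {r : ℕ} (z : Fin r → ℕ) (b : Fin r) :
    z b ∈ nz Γ z :=
  Finset.mem_biUnion.2 ⟨b, Finset.mem_univ _, hs.refl _⟩

/-- ROW PNX -/
theorem pnx (pix : PixStmt) (epx : EpxStmt) : PnxStmt := by
  classical
  intro E D _ _ _ _ _ ζ m ρ N k c0 s Γ y J1 hs hfree hy hyG hN hk hN' hkN hm
  have hs1 : 1 ≤ s := sym_pos hs
  have hss : 1 ≤ s * s := Nat.mul_pos hs1 hs1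
  have hsss : s ≤ s * s := Nat.le_mul_of_pos_left s hs1
  -- the pivot set and the point
  obtain ⟨z, hz, hzJ1⟩ := pix E ρ N s Γ y hs hy hyG hN J1 (by
    refine le_trans ?_ hN'
    have h1 : J1.card ≤ J1.card * (s * s) := Nat.le_mul_of_pos_right _ hss
    have h2 : (J1.card + ρ * s + k + ρ) * (s * s) =
      J1.card * (s * s) + (ρ * s + k) * (s * s) + ρ * (s * s) := by ring
    omega)
  obtain ⟨Om, instF, instA, j, e, hpt⟩ := epx E D ζ m ρ N s Γ y J1 z hs hfree hy hyG hN hz hzJ1 (by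
    refine le_trans ?_ hN'
    have h1 : (J1.card + ρ * s) * s ≤ (J1.card + ρ * s) * (s * s) := Nat.mul_le_mul_left _ hsss
    have h2 : (J1.card + ρ * s + k + ρ) * (s * s) =
      (J1.card + ρ * s) * (s * s) + k * (s * s) + ρ * (s * s) := by ring
    omega) (by
    refine le_trans ?_ hm
    have h1 : (J1.card + ρ * s + k + ρ + 1) * (s + c0) =
      ρ * s + ((J1.card + ρ * s + k + 1) * s + (J1.card + ρ * s + k + ρ + 1) * c0) := by ring
    omega)
  have hJc : (J1 ∪ nz Γ z).card ≤ J1.card + ρ * s :=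
    (Finset.card_union_le _ _).trans (Nat.add_le_add_left (card_nz hs z) _)
  have hzJ : ∀ b, z b ∈ J1 ∪ nz Γ z := fun b => Finset.mem_union_right _ (mem_nz hs z b)
  have h0 : ∀ a, e (Ph ζ (J1 ∪ nz Γ z) (y a)) = 0 := hpt.2.2.2
  -- polynomials in few variables
  have hfew : ∀ h : MvPolynomial ℕ E, h ≠ 0 → h.vars.card ≤ k →
      e (Ph ζ (J1 ∪ nz Γ z) h) ≠ 0 := by
    intro h hh hhk
    have hT : (J1 ∪ nz Γ z ∪ h.vars).card ≤ J1.card + ρ * s + k :=
      (Finset.card_union_le _ _).trans (add_le_add hJc hhk)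
    have hnb1 : (nb Γ (J1 ∪ nz Γ z ∪ h.vars)).card ≤ (J1.card + ρ * s + k) * s :=
      (card_nb hs _).trans (Nat.mul_le_mul_right _ hT)
    have hnb2 : (nb Γ (nb Γ (J1 ∪ nz Γ z ∪ h.vars))).card ≤ (J1.card + ρ * s + k) * (s * s) := by
      rw [← mul_assoc]
      exact (card_nb hs _).trans (Nat.mul_le_mul_right _ hnb1)
    obtain ⟨z', hz', hz'T⟩ := pix E ρ N s Γ y hs hy hyG hN
      (nb Γ (nb Γ (J1 ∪ nz Γ z ∪ h.vars))) (by
        refine le_trans ?_ hN'
        have h2 : (J1.card + ρ * s + k + ρ) * (s * s) =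
          (J1.card + ρ * s + k) * (s * s) + ρ * (s * s) := by ring
        omega)
    exact (maxx E D Om ζ m ρ ρ s Γ y y (J1 ∪ nz Γ z) (J1 ∪ nz Γ z ∪ h.vars) z z' j e hs hfree hpt
      hz.1 hzJ Finset.subset_union_left hyG h0 hz' hz'T (by
        refine le_trans ?_ hm
        have h1 : (J1.card + ρ * s + k + ρ + 1) * (s + c0) = (J1.card + ρ * s + k) * s + ρ * s +
          (s + (J1.card + ρ * s + k + ρ + 1) * c0) := by ring
        omega)).2 rfl h hh Finset.subset_union_right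
  refine ⟨J1 ∪ nz Γ z, Om, instF, instA, e, Finset.subset_union_left, hJc, h0, hfew, ?_⟩
  -- forms outside the span
  intro g hg hgy hge
  have hθ : ∀ f ∈ Submodule.span E (Set.range (Fin.snoc y g : Fin (ρ + 1) → MvPolynomial ℕ E)),
      e (Ph ζ (J1 ∪ nz Γ z) f) = 0 := by
    intro f hf
    have h1 : Submodule.span E (Set.range (Fin.snoc y g : Fin (ρ + 1) → MvPolynomial ℕ E)) ≤
        LinearMap.ker (e.comp (Ph ζ (J1 ∪ nz Γ z))).toLinearMap := by
      rw [Submodule.span_le]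
      rintro _ ⟨a, rfl⟩
      refine Fin.lastCases ?_ (fun a => ?_) a
      · rw [Fin.snoc_last]
        exact hge
      · rw [Fin.snoc_castSucc]
        exact h0 a
    exact h1 hf
  have hyg : LinearIndependent E (Fin.snoc y g : Fin (ρ + 1) → MvPolynomial ℕ E) :=
    linearIndependent_finSnoc.2 ⟨hy, hgy⟩
  have hs' := sym_union hs hg
  have hG' : ∀ a, IsG (fun i => Γ i ∪ (pderiv i g).vars)
      ((Fin.snoc y g : Fin (ρ + 1) → MvPolynomial ℕ E) a) := by
    intro a
    refine Fin.lastCases ?_ (fun a => ?_) a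
    · rw [Fin.snoc_last]
      exact fun i => Finset.subset_union_right
    · rw [Fin.snoc_castSucc]
      exact fun i => (hyG a i).trans Finset.subset_union_left
  by_cases hrob : Robust ((J1.card + ρ * s + ρ + 1) * ((s + c0) * (s + c0)))
    (Submodule.span E (Set.range (Fin.snoc y g : Fin (ρ + 1) → MvPolynomial ℕ E)))
  · have hnb1 : (nb (fun i => Γ i ∪ (pderiv i g).vars) (J1 ∪ nz Γ z)).card ≤
        (J1.card + ρ * s) * (s + c0) :=
      (card_nb hs' _).trans (Nat.mul_le_mul_right _ hJc)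
    have hnb2 : (nb (fun i => Γ i ∪ (pderiv i g).vars)
        (nb (fun i => Γ i ∪ (pderiv i g).vars) (J1 ∪ nz Γ z))).card ≤
        (J1.card + ρ * s) * ((s + c0) * (s + c0)) := by
      rw [← mul_assoc]
      exact (card_nb hs' _).trans (Nat.mul_le_mul_right _ hnb1)
    obtain ⟨z', hz', hz'T⟩ := pix E (ρ + 1) _ (s + c0) _ _ hs' hyg hG' hrob
      (nb (fun i => Γ i ∪ (pderiv i g).vars)
        (nb (fun i => Γ i ∪ (pderiv i g).vars) (J1 ∪ nz Γ z))) (by
        have h2 : (J1.card + ρ * s + ρ + 1) * ((s + c0) * (s + c0)) =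
          (J1.card + ρ * s) * ((s + c0) * (s + c0)) + (ρ + 1) * ((s + c0) * (s + c0)) := by ring
        omega)
    have h1 := (maxx E D Om ζ m ρ (ρ + 1) (s + c0) _ y _ (J1 ∪ nz Γ z) (J1 ∪ nz Γ z) z z' j e
      hs' hfree hpt hz.1 hzJ (Finset.Subset.refl _) hG'
      (fun a => hθ _ (Submodule.subset_span ⟨a, rfl⟩)) hz' hz'T (by
        refine le_trans ?_ hm
        have h1 : (J1.card + ρ * s + k + ρ + 1) * (s + c0) = (J1.card + ρ * s) * (s + c0) +
          (ρ + 1) * (s + c0) + k * (s + c0) := by ring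
        omega)).1
    omega
  · unfold Robust at hrob
    push Not at hrob
    obtain ⟨f, hf, hf0, hfc⟩ := hrob
    exact hfew f hf0 (by omega) (hθ f hf)

end Pool.Agent.PX.H22
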